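import Pool.Agent.Y194.TS.Num

/-!
# The corank of the second cohomology group in Galois extensions of `p`-power degree

Let `K` be a number field, `Ω` an algebraic closure, `p` a prime, `S` a set of primes of `K` and
`ρ : Gal(Ω/K) → GL_d(ℤ_p)` a continuous representation unramified outside `S`, for instance the power `χ ^ j` of the
cyclotomic character (`d = 1`, `S` containing the primes above `p`). Let `A = (ℚ_p/ℤ_p) ^ d` with the action of
`ρ`. For a finite extension `F` of `K` let `Z¹(F)` be the group of continuous crossed homomorphisms from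
`Gal(Ω/F)` to `A` killing the inertia groups of the places not above `S`, that is the group of the
1-cocycles of `G_S(F)` with values in `A`. Its elements killed by `p ^ k` are the crossed homomorphisms with
values in `A[p ^ k] = (ℤ/p ^ k) ^ d`.

Theorem. Let `F/K` be a Galois extension of degree `p ^ n`, unramified outside `S`, and let
`Z¹(K) ≅ (ℚ_p/ℤ_p) ^ a × ∏_j ℤ/p ^ {v_j}`, `Z¹(F) ≅ (ℚ_p/ℤ_p) ^ a' × ∏_j ℤ/p ^ {v'_j}`. Then

  `a' - d + ∑ (1 - p ^ {-v'_j}) ≤ [F : K] (a - d + ∑ (1 - p ^ {-v_j}))`.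

Let `S` be finite and contain the primes above `p`, `p ≠ 2`, `A = ℚ_p/ℤ_p(j)`, `j ≠ 0`, and let `h(F)` be the corank of
`H²(O_{F,S}, ℚ_p/ℤ_p(j))`; Schneider's conjecture for `F`, `p` and `r = 1 - j` is the equality `h(F) = 0`. Tate's formula for
the Euler characteristic gives `a = 1 + e + h(K)` and `a' = 1 + [F : K] e + h(F)` with `e = r_2(K)` for even `j`,
`e = r_1(K) + r_2(K)` for odd `j`, and `∏ ℤ/p ^ {v_j}` is isomorphic to the torsion subgroup of `H²(O_{K,S}, ℤ_p(j))`. So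

  `h(F) + ∑ (1 - p ^ {-v'_j}) ≤ [F : K] (h(K) + ∑ (1 - p ^ {-v_j}))`.

The set `S` may contain the ramified primes, so that all Galois extensions `F/K` of `p`-power degree are covered.

Proof. The module `T` of all functions `c : Gal(Ω/K) → A` with `c(σ τ) = c(σ) + σ c(τ)` for all `σ` in
`Gal(Ω/F)` and all `τ` in `Gal(Ω/K)` (and whose restriction to `Gal(Ω/F)` is in `Z¹(F)`) is isomorphic to
`Z¹(F) × A ^ {[F : K] - 1}` as a group; `Gal(F/K)` acts on it with invariants `Z¹(K)`. For a discrete module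
`H` and `s_k(H) = log_p #H[p^{k+1}] - log_p #H[p^k]` let `D(H) = ∑ p^{-k} s_k(H)`. For `X = γ - 1` with `γ ^ p = 1` on
`H` one shows `D(H) ≤ p D(ker X)` by induction, so that `D(T) ≤ [F : K] D(T^{Gal(F/K)})`.
-/

set_option autoImplicit false

open IsDedekindDomain NumberField Pool.Agent.Y194.TS

namespace Pool.Agent.Results.MP_59f3ad_nt.CorankInPExtensions

/-- `∑ (1 - p ^ (-v_j))` -/
noncomputable def weight (p : ℕ) (v : Multiset ℕ) : ℝ := (v.map (fun j => 1 - ((p : ℝ)⁻¹) ^ j)).sum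

theorem result {K Ω : Type} [Field K] [NumberField K] [Field Ω] [Algebra K Ω] [IsAlgClosure K Ω]
    (p : ℕ) [Fact p.Prime] (S : Set (HeightOneSpectrum (𝓞 K))) {d : ℕ}
    (ρ : (Ω ≃ₐ[K] Ω) →* Matrix.GeneralLinearGroup (Fin d) ℤ_[p]) (hρ : Continuous ρ)
    (hρS : ∀ σ ∈ Inertia Ω S, ρ σ = 1)
    (F : IntermediateField K Ω) [NumberField F] [IsGalois K F] (n : ℕ)
    (hdeg : Module.finrank K F = p ^ n) (hun : ∀ σ ∈ Inertia Ω S, σ ∈ F.fixingSubgroup)
    (a a' : ℕ) (v v' : Multiset ℕ)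
    (hK : HasType p a v fun k => Nat.card {c : (Ω ≃ₐ[K] Ω) → Fin d → ZMod (p ^ k) //
      Crossed (fun σ => (ρ σ : Matrix (Fin d) (Fin d) ℤ_[p]).map (PadicInt.toZModPow k))
        (Inertia Ω S) c})
    (hF : HasType p a' v' fun k => Nat.card {c : F.fixingSubgroup → Fin d → ZMod (p ^ k) //
      Crossed (fun σ : F.fixingSubgroup =>
        (ρ (σ : Ω ≃ₐ[K] Ω) : Matrix (Fin d) (Fin d) ℤ_[p]).map (PadicInt.toZModPow k))
        {σ : F.fixingSubgroup | (σ : Ω ≃ₐ[K] Ω) ∈ Inertia Ω S} c}) :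
    (a' : ℝ) - d + weight p v' ≤ (p : ℝ) ^ n * (a - d + weight p v) ∧
    ∀ e h h' : ℤ, (a : ℤ) = d + e + h → (a' : ℤ) = d + p ^ n * e + h' →
      (h' : ℝ) + weight p v' ≤ (p : ℝ) ^ n * (h + weight p v) := by
  have hgal : IsGalois K Ω := IsAlgClosure.isGalois K Ω
  have hfd : FiniteDimensional K F := Module.finite_of_finrank_pos (by
    rw [hdeg]
    exact pow_pos (Fact.out (p := p.Prime)).pos n)
  have h1 : (a' : ℝ) - d + weight p v' ≤ (p : ℝ) ^ n * (a - d + weight p v) :=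
    num_main p S ρ hρ hρS F n hdeg hun a a' v v' hK hF
  refine ⟨h1, fun e h h' ha ha' => ?_⟩
  have h4 : (a : ℝ) = d + e + h := by exact_mod_cast ha
  have h5 : (a' : ℝ) = d + (p : ℝ) ^ n * e + h' := by exact_mod_cast ha'
  rw [h4, h5] at h1
  nlinarith

end Pool.Agent.Results.MP_59f3ad_nt.CorankInPExtensions
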