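import Mathlib
import Pool.Agent.TH350.SC.Fin
import Pool.Agent.Results.MP_a3a416_nt.GaloisOrbits

/-!
# Schneider's conjecture over `ℚ`: at least half of the twists in every Galois orbit, every prime

`ZetaUnit p r` (`Pool/Agent/TH350/SC/Defs.lean`) says that the `p`-adic zeta value
`ζ_p(r) = 1/(r-1) · lim_N p^{-N} ∑_{0 < a < p^N, p ∤ a} a^{1-r}` exists and is a `p`-adic unit; it is
well known that Schneider's conjecture holds for `ℚ`, `p`, `r` (odd `r ≥ 3`, odd `p`) if and only if
`ζ_p(r) ≠ 0`.  The residue classes `c` modulo `p - 1` with `gcd (c, p - 1) = t`, `t` odd, belong to the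
characters `ω^(1-c)` with `ω^(-c)` of exact order `(p - 1) / t`: a Galois orbit of characters.
-/

set_option autoImplicit false

namespace Pool.Agent.Results.MP_59f3ad_nt.HalfOfEveryOrbit

open Pool.Agent.TH350.SC

open Classical in
/-- Let `p ≥ 5` be a prime and let `t` be an odd divisor of `p - 1`. The number `G` of the residue
classes `c` modulo `p - 1` with `gcd (c, p - 1) = t` such that `ζ_p(r)` is a `p`-adic unit for ALL
`r ≥ 2`, `r ≡ c (mod p - 1)`, is positive, and
`G ≥ φ((p - 1) / t) (1 / 2 - log log p / log p)`, less one if `t = 1`. -/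
theorem result (p : ℕ) (hp : p.Prime) (hp5 : 5 ≤ p) (t : ℕ) (ht : Odd t) (htp : t ∣ p - 1)
    (G : ℕ)
    (hG : G = ((Finset.range (p - 1)).filter (fun c : ℕ => Nat.gcd c (p - 1) = t ∧
      ∀ r : ℕ, 2 ≤ r → r ≡ c [MOD p - 1] → ZetaUnit p r)).card) :
    1 ≤ G ∧ (Nat.totient ((p - 1) / t) : ℝ) * (1 / 2 - Real.log (Real.log p) / Real.log p)
      - (if t = 1 then 1 else 0) ≤ G := by
  set O := (Finset.Icc 1 ((p - 3) / 2)).filter
    (fun m : ℕ => Nat.gcd (2 * m - 1) (p - 1) = t) with hO
  set B := (Finset.Icc 1 ((p - 3) / 2)).filter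
    (fun m : ℕ => Nat.gcd (2 * m - 1) (p - 1) = t ∧ (p : ℤ) ∣ (bernoulli (2 * m)).num) with hB
  set H := (Finset.Icc 1 ((p - 3) / 2)).filter
    (fun m : ℕ => Nat.gcd (2 * m - 1) (p - 1) = t ∧ ¬ (p : ℤ) ∣ (bernoulli (2 * m)).num) with hH
  obtain ⟨h1, h2, h3⟩ := Pool.Agent.Results.MP_a3a416_nt.GaloisOrbits.result p hp hp5 t ht htp
    O.card B.card rfl rfl
  have h4 : B.card + H.card = O.card := by
    have h5 := Finset.card_filter_add_card_filter_not (s := O)
      (fun m : ℕ => (p : ℤ) ∣ (bernoulli (2 * m)).num)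
    rw [hO, Finset.filter_filter, Finset.filter_filter] at h5
    exact h5
  have h6 : H.card ≤ G := by
    rw [hG]
    refine Finset.card_le_card_of_injOn (fun m => p - 2 * m) ?_ ?_
    · intro m hm
      have hm' := hm
      rw [hH, Finset.mem_coe, Finset.mem_filter, Finset.mem_Icc] at hm'
      obtain ⟨⟨hm1, hm2⟩, hm3, hm4⟩ := hm'
      rw [Finset.mem_coe, Finset.mem_filter, Finset.mem_range]
      have e1 : p - 2 * m = (p - 1) - (2 * m - 1) := by omega
      refine ⟨(by show p - 2 * m < p - 1; omega), ?_, ?_⟩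
      · show Nat.gcd (p - 2 * m) (p - 1) = t
        rw [e1, Nat.gcd_comm, ← hm3, Nat.gcd_comm (2 * m - 1)]
        exact Nat.gcd_self_sub_right (by omega)
      · intro r hr hrc
        refine good hp hm1 (by omega) hm4 r hr ?_
        have e2 : r + (2 * m - 1) ≡ (p - 1 - (2 * m - 1)) + (2 * m - 1) [MOD p - 1] := by
          have hrc' : r ≡ p - 1 - (2 * m - 1) [MOD p - 1] := by
            have : (fun m => p - 2 * m) m = p - 1 - (2 * m - 1) := e1
            rw [← this]
            exact hrc
          exact Nat.ModEq.add_right _ hrc'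
        rw [Nat.sub_add_cancel (by omega)] at e2
        have e3 : r + (2 * m - 1) = r - 1 + 2 * m := by omega
        rw [e3] at e2
        exact (Nat.modEq_zero_iff_dvd).1 (e2.trans (by
          show (p - 1) % (p - 1) = 0 % (p - 1)
          simp))
    · intro a ha b hb hab
      rw [hH, Finset.mem_coe, Finset.mem_filter, Finset.mem_Icc] at ha hb
      simp only at hab
      omega
  have h7 : 1 ≤ G := by omega
  refine ⟨h7, ?_⟩
  have h8 : (B.card : ℝ) + H.card = O.card := by exact_mod_cast h4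
  have h9 : (H.card : ℝ) ≤ G := by exact_mod_cast h6
  have h10 : (O.card : ℝ) + (if t = 1 then (1:ℝ) else 0) = Nat.totient ((p - 1) / t) := by
    rw [← h1]
    push_cast
    split_ifs <;> simp
  linarith

end Pool.Agent.Results.MP_59f3ad_nt.HalfOfEveryOrbit
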