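import Mathlib
import Pool.Agent.TH350.SC.Fin

/-!
# Schneider's conjecture over `ℚ`: uniform ranges of twists for almost all primes

`GoodClass p m` (`Pool/Agent/TH350/SC/Defs.lean`) says that for every `r ≥ 2`,
`r ≡ 1 - 2m (mod p - 1)`, the `p`-adic zeta value
`ζ_p(r) = 1/(r-1) · lim_N p^{-N} ∑_{0 < a < p^N, p ∤ a} a^{1-r}` exists and is a `p`-adic unit (so that
Schneider's conjecture holds for `ℚ`, `p`, `r`).  The counting theorem for the numerators of the
Bernoulli numbers behind it is `MP_a3a416_nt.SparseIrregular`.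
-/

set_option autoImplicit false

namespace Pool.Agent.Results.MP_59f3ad_nt.SmallTwistsAlmostAllPrimes

open Filter Topology Pool.Agent.TH350.SC

/-- `badCount p K` is the number of the `m`, `1 ≤ m ≤ K`, `2m ≤ p - 3`, that are not good.
(1) For every `η > 0` and every `ψ` tending to infinity almost all primes `p` satisfy
`badCount p K ≤ ψ(p) (K² log p / p)^(1+η)` for all `K` simultaneously.
(2) For every `ψ` tending to infinity almost all primes `p` have the property that every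
`m ≤ (p - 3) / 2` with `m ψ(p) ≤ √(p / log p)` is good. -/
theorem result :
    (∀ (η : ℝ), 0 < η → ∀ (ψ : ℕ → ℝ), Tendsto ψ atTop atTop →
      Tendsto (fun X : ℕ =>
        (({p : ℕ | p ≤ X ∧ p.Prime ∧ ∀ K : ℕ,
            (badCount p K : ℝ) ≤ ψ p * ((K : ℝ) ^ 2 * Real.log p / p) ^ (1 + η)}.ncard : ℕ) : ℝ)
          / (({p : ℕ | p ≤ X ∧ p.Prime}.ncard : ℕ) : ℝ))
      atTop (𝓝 1)) ∧
    (∀ (ψ : ℕ → ℝ), Tendsto ψ atTop atTop →
      Tendsto (fun X : ℕ =>
        (({p : ℕ | p ≤ X ∧ p.Prime ∧ ∀ m : ℕ, 1 ≤ m → 2 * m + 3 ≤ p →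
            (m : ℝ) * ψ p ≤ √(p / Real.log p) → GoodClass p m}.ncard : ℕ) : ℝ)
          / (({p : ℕ | p ≤ X ∧ p.Prime}.ncard : ℕ) : ℝ))
      atTop (𝓝 1)) :=
  ⟨fun η hη ψ hψ => sparse η hη ψ hψ, fun ψ hψ => none_small ψ hψ⟩

end Pool.Agent.Results.MP_59f3ad_nt.SmallTwistsAlmostAllPrimes
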