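import Mathlib
import Pool.Agent.TH350.SC.Fin
import Pool.Agent.Results.MP_a3a416_nt.BalancedRegularSums

/-!
# Schneider's conjecture over `ℚ`: pairs of twists with given sum, every prime

`GoodClass p m` (`Pool/Agent/TH350/SC/Defs.lean`) says that for every `r ≥ 2`,
`r ≡ 1 - 2m (mod p - 1)`, the `p`-adic zeta value
`ζ_p(r) = 1/(r-1) · lim_N p^{-N} ∑_{0 < a < p^N, p ∤ a} a^{1-r}` exists and is a `p`-adic unit (so that
Schneider's conjecture holds for `ℚ`, `p`, `r`).  The two classes in the theorem contain the twists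
`r`, `r'` with `r + r' ≡ 2 - 2N`.  The theorem on Bernoulli numbers behind it is
`MP_a3a416_nt.BalancedRegularSums`.
-/

set_option autoImplicit false

namespace Pool.Agent.Results.MP_59f3ad_nt.SumsOfTwoTwists

open Finset Pool.Agent.TH350.SC

open Classical in
/-- Let `p` be a prime, `2 ≤ N ≤ (p - 3) / 2` and `2 V < N`. The number `R` of the `i`,
`V < i < N - V`, such that `ζ_p(r)` is a `p`-adic unit for all `r ≥ 2` with `r ≡ 1 - 2i` or
`r ≡ 1 - 2(N - i) (mod p - 1)` satisfies `2 (N - V) ≤ (2 R + 1) (4 V + 3 R + 1)`; in particular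
`R ≥ 1` if `3 V < N`. -/
theorem result (p : ℕ) (hp : p.Prime) (N : ℕ) (hN2 : 2 ≤ N) (hN : 2 * N + 3 ≤ p) (V : ℕ)
    (hV : 2 * V < N) (R : ℕ)
    (hR : R = ((Finset.Ioo V (N - V)).filter
      (fun i : ℕ => GoodClass p i ∧ GoodClass p (N - i))).card) :
    2 * (N - V) ≤ (2 * R + 1) * (4 * V + 3 * R + 1) ∧ (3 * V < N → 1 ≤ R) := by
  set r := ((Finset.Ioo V (N - V)).filter (fun i : ℕ => ¬ ((p : ℤ) ∣ (bernoulli (2 * i)).num) ∧
      ¬ ((p : ℤ) ∣ (bernoulli (2 * (N - i))).num))).card with hr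
  have h1 := Pool.Agent.Results.MP_a3a416_nt.BalancedRegularSums.result p hp N hN2 hN V hV r hr
  have h2 : r ≤ R := by
    rw [hr, hR]
    refine Finset.card_le_card ?_
    intro i hi
    rw [Finset.mem_filter, Finset.mem_Ioo] at hi ⊢
    refine ⟨hi.1, good hp (by omega) (by omega) hi.2.1, good hp (by omega) (by omega) hi.2.2⟩
  have h3 : 2 * (N - V) ≤ (2 * R + 1) * (4 * V + 3 * R + 1) :=
    h1.trans (Nat.mul_le_mul (by omega) (by omega))
  refine ⟨h3, fun h4 => ?_⟩
  by_contra h5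
  have h6 : R = 0 := by omega
  rw [h6] at h3
  omega

end Pool.Agent.Results.MP_59f3ad_nt.SumsOfTwoTwists
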